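import Pool.Agent.W904.AK.Final

/-!
# Sums and differences: the entropy argument

A configuration of six random elements `X, Y, X', Y', P, Q` of a finite set `A` of integers with
`X + Y = X' + Y'`, such that several differences determine the two elements.
-/

set_option autoImplicit false
set_option linter.unusedVariables false

open scoped Pointwise

namespace Pool.Agent.TH404.SD
open Pool.Agent.W904.AK

variable {Ω : Type} [Fintype Ω]

/-- The difference determines the two elements on the support. -/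
def Spec (q : Ω → ℝ) (X Y : Ω → ℤ) : Prop :=
  ∀ ω ω', q ω ≠ 0 → q ω' ≠ 0 → X ω - Y ω = X ω' - Y ω' → X ω = X ω' ∧ Y ω = Y ω'

/-- The configuration. -/
structure GS (q : Ω → ℝ) (X Y X' Y' P Q : Ω → ℤ) (A : Finset ℤ) (δ : ℝ) : Prop where
  law : IsLaw q
  mem : ∀ ω, q ω ≠ 0 → X ω ∈ A ∧ Y ω ∈ A ∧ X' ω ∈ A ∧ Y' ω ∈ A ∧ P ω ∈ A ∧ Q ω ∈ A
  hU : ∀ ω, q ω ≠ 0 → X ω + Y ω = X' ω + Y' ω
  sXY : Spec q X Y
  sXY' : Spec q X' Y'
  sPY : Spec q P Y
  sPY' : Spec q P Y'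
  sXQ : Spec q X Q
  sXQ' : Spec q X' Q
  sPQ : Spec q P Q
  inv : ∀ {α : Type} (F : ℤ → ℤ → ℤ → ℤ → ℤ → ℤ → α),
    H q (fun ω => F (X ω) (Y ω) (X' ω) (Y' ω) (P ω) (Q ω)) =
      H q (fun ω => F (X' ω) (Y' ω) (X ω) (Y ω) (P ω) (Q ω))
  k4 : 4 * Real.log A.card - δ ≤ H q (fun ω => (X ω, Y ω, P ω, Q ω))
  hF : 8 * Real.log A.card - 2 * δ ≤ H q (fun ω => (X ω, Y ω, X' ω, P ω, Q ω)) +
    H q (fun ω => (X ω + Y ω, P ω, Q ω))
  e12 : H q (fun ω => Y ω + P ω + Q ω) = H q (fun ω => X ω + Y ω + Q ω)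
  e21 : H q (fun ω => X ω + P ω + Q ω) = H q (fun ω => X ω + Y ω + P ω)
  top : H q (fun ω => X ω + Y ω + P ω) + H q (fun ω => X ω + Y ω + Q ω) +
    2 * Real.log A.card - 3 * δ ≤ 3 * H q (fun ω => X ω + Y ω + P ω + Q ω)

namespace GS

variable {q : Ω → ℝ} {X Y X' Y' P Q : Ω → ℤ} {A : Finset ℤ} {δ : ℝ}

theorem key (hG : GS q X Y X' Y' P Q A δ) (ω ω' : Ω) (h : q ω ≠ 0) (h' : q ω' ≠ 0) :
    (X ω + Y ω = X' ω + Y' ω) ∧ (X ω' + Y ω' = X' ω' + Y' ω') ∧
    (X ω - Y ω = X ω' - Y ω' → X ω = X ω' ∧ Y ω = Y ω') ∧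
    (X' ω - Y' ω = X' ω' - Y' ω' → X' ω = X' ω' ∧ Y' ω = Y' ω') ∧
    (P ω - Y ω = P ω' - Y ω' → P ω = P ω' ∧ Y ω = Y ω') ∧
    (P ω - Y' ω = P ω' - Y' ω' → P ω = P ω' ∧ Y' ω = Y' ω') ∧
    (X ω - Q ω = X ω' - Q ω' → X ω = X ω' ∧ Q ω = Q ω') ∧
    (X' ω - Q ω = X' ω' - Q ω' → X' ω = X' ω' ∧ Q ω = Q ω') ∧
    (P ω - Q ω = P ω' - Q ω' → P ω = P ω' ∧ Q ω = Q ω') :=
  ⟨hG.hU ω h, hG.hU ω' h', hG.sXY ω ω' h h', hG.sXY' ω ω' h h', hG.sPY ω ω' h h',
    hG.sPY' ω ω' h h', hG.sXQ ω ω' h h', hG.sXQ' ω ω' h h', hG.sPQ ω ω' h h'⟩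

theorem one (hG : GS q X Y X' Y' P Q A δ) (f : Ω → ℤ) (hf : ∀ ω, q ω ≠ 0 → f ω ∈ A) :
    H q (fun ω => f ω) ≤ Real.log A.card := H_le_log_card hG.law f A hf

theorem two (hG : GS q X Y X' Y' P Q A δ) (f g : Ω → ℤ) (hf : ∀ ω, q ω ≠ 0 → f ω ∈ A)
    (hg : ∀ ω, q ω ≠ 0 → g ω ∈ A) :
    H q (fun ω => f ω + g ω) ≤ Real.log (A + A).card :=
  H_le_log_card hG.law _ (A + A) fun ω h => Finset.add_mem_add (hf ω h) (hg ω h)

end GS

set_option maxHeartbeats 4000000 in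
theorem main_ineq {q : Ω → ℝ} {X Y X' Y' P Q : Ω → ℤ} {A : Finset ℤ} {δ : ℝ}
    (hG : GS q X Y X' Y' P Q A δ) :
    128 * Real.log A.card ≤ 85 * Real.log (A + A).card + 162 * δ := by
  have hq := hG.law
  have hk4 := hG.k4
  have hhF := hG.hF
  have he12 := hG.e12
  have he21 := hG.e21
  have htop := hG.top
  have i1 : H q (fun ω => (X ω, Y ω, X' ω, P ω, Q ω)) ≤ H q (fun ω => (X ω, Y ω, X' ω)) + H q (fun ω => (P ω, Q ω)) :=
    subadd hq (by
      intro ω ω' h h' e; have hk := GS.key hG ω ω' h h'; simp only [Prod.mk.injEq] at e ⊢; omega)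
  have t1 : H q (fun ω => (P ω, Q ω)) ≤ H q (fun ω => P ω) + H q (fun ω => Q ω) := subadd hq (by
      intro ω ω' h h' e; have hk := GS.key hG ω ω' h h'; simp only [Prod.mk.injEq] at e ⊢; omega)
  have i2 : H q (fun ω => (X ω, Y ω, X' ω)) + H q (fun ω => X ω + Y ω) ≤ H q (fun ω => (X ω, Y ω)) + H q (fun ω => (X' ω, Y' ω)) :=
    submod' hq (by
      intro ω ω' h h' e; have hk := GS.key hG ω ω' h h'; simp only [Prod.mk.injEq] at e ⊢; omega) (by
      intro ω ω' h h' e; have hk := GS.key hG ω ω' h h'; simp only [Prod.mk.injEq] at e ⊢; omega) (by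
      intro ω ω' h h' e; have hk := GS.key hG ω ω' h h'; simp only [Prod.mk.injEq] at e ⊢; omega)
  have i3 : H q (fun ω => (X ω, Y ω)) ≤ H q (fun ω => X ω) + H q (fun ω => Y ω) :=
    subadd hq (by
      intro ω ω' h h' e; have hk := GS.key hG ω ω' h h'; simp only [Prod.mk.injEq] at e ⊢; omega)
  have i4 : H q (fun ω => (X' ω, Y' ω)) ≤ H q (fun ω => X' ω) + H q (fun ω => Y' ω) :=
    subadd hq (by
      intro ω ω' h h' e; have hk := GS.key hG ω ω' h h'; simp only [Prod.mk.injEq] at e ⊢; omega)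
  have t2 : H q (fun ω => (X ω + Y ω, P ω, Q ω)) ≤ H q (fun ω => X ω + Y ω) + H q (fun ω => (P ω, Q ω)) := subadd hq (by
      intro ω ω' h h' e; have hk := GS.key hG ω ω' h h'; simp only [Prod.mk.injEq] at e ⊢; omega)
  have i5 : H q (fun ω => (X ω, Y ω, X' ω)) ≤ H q (fun ω => X ω - X' ω) + H q (fun ω => X ω - Y' ω) :=
    subadd hq (by
      intro ω ω' h h' e; have hk := GS.key hG ω ω' h h'; simp only [Prod.mk.injEq] at e ⊢; omega)
  have i6 : H q (fun ω => (X ω, Y ω, X' ω)) + H q (fun ω => X ω - X' ω) ≤ H q (fun ω => (X ω, X' ω)) + H q (fun ω => (Y ω, Y' ω)) :=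
    submod' hq (by
      intro ω ω' h h' e; have hk := GS.key hG ω ω' h h'; simp only [Prod.mk.injEq] at e ⊢; omega) (by
      intro ω ω' h h' e; have hk := GS.key hG ω ω' h h'; simp only [Prod.mk.injEq] at e ⊢; omega) (by
      intro ω ω' h h' e; have hk := GS.key hG ω ω' h h'; simp only [Prod.mk.injEq] at e ⊢; omega)
  have i7 : H q (fun ω => (X ω, Y ω, X' ω)) + H q (fun ω => X ω - Y' ω) ≤ H q (fun ω => (X ω, Y' ω)) + H q (fun ω => (X' ω, Y ω)) :=
    submod' hq (by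
      intro ω ω' h h' e; have hk := GS.key hG ω ω' h h'; simp only [Prod.mk.injEq] at e ⊢; omega) (by
      intro ω ω' h h' e; have hk := GS.key hG ω ω' h h'; simp only [Prod.mk.injEq] at e ⊢; omega) (by
      intro ω ω' h h' e; have hk := GS.key hG ω ω' h h'; simp only [Prod.mk.injEq] at e ⊢; omega)
  have i8 : H q (fun ω => (P ω, Y ω, Y' ω)) ≤ H q (fun ω => P ω + Y ω - Y' ω) + H q (fun ω => Y ω) :=
    subadd hq (by
      intro ω ω' h h' e; have hk := GS.key hG ω ω' h h'; simp only [Prod.mk.injEq] at e ⊢; omega)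
  have i9 : H q (fun ω => (X ω, Y ω, X' ω, P ω, Q ω)) + H q (fun ω => (Y ω, Y' ω)) ≤ H q (fun ω => (P ω, Y ω, Y' ω)) + H q (fun ω => (X ω, Y ω, X' ω, Q ω)) :=
    submod' hq (by
      intro ω ω' h h' e; have hk := GS.key hG ω ω' h h'; simp only [Prod.mk.injEq] at e ⊢; omega) (by
      intro ω ω' h h' e; have hk := GS.key hG ω ω' h h'; simp only [Prod.mk.injEq] at e ⊢; omega) (by
      intro ω ω' h h' e; have hk := GS.key hG ω ω' h h'; simp only [Prod.mk.injEq] at e ⊢; omega)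
  have i10 : H q (fun ω => (X ω, Y' ω, P ω + X' ω)) + H q (fun ω => P ω + Y ω - Y' ω) ≤ H q (fun ω => (X ω, P ω + X' ω)) + H q (fun ω => (Y' ω, P ω + Y ω)) :=
    submod' hq (by
      intro ω ω' h h' e; have hk := GS.key hG ω ω' h h'; simp only [Prod.mk.injEq] at e ⊢; omega) (by
      intro ω ω' h h' e; have hk := GS.key hG ω ω' h h'; simp only [Prod.mk.injEq] at e ⊢; omega) (by
      intro ω ω' h h' e; have hk := GS.key hG ω ω' h h'; simp only [Prod.mk.injEq] at e ⊢; omega)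
  have i11 : H q (fun ω => (X ω, P ω + X' ω)) ≤ H q (fun ω => X ω) + H q (fun ω => P ω + X' ω) :=
    subadd hq (by
      intro ω ω' h h' e; have hk := GS.key hG ω ω' h h'; simp only [Prod.mk.injEq] at e ⊢; omega)
  have i12 : H q (fun ω => (Y' ω, P ω + Y ω)) ≤ H q (fun ω => Y' ω) + H q (fun ω => P ω + Y ω) :=
    subadd hq (by
      intro ω ω' h h' e; have hk := GS.key hG ω ω' h h'; simp only [Prod.mk.injEq] at e ⊢; omega)
  have i13 : H q (fun ω => (P ω, Y ω, Y' ω)) ≤ H q (fun ω => P ω) + H q (fun ω => (Y ω, Y' ω)) :=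
    subadd hq (by
      intro ω ω' h h' e; have hk := GS.key hG ω ω' h h'; simp only [Prod.mk.injEq] at e ⊢; omega)
  have i14 : H q (fun ω => (Q ω, X' ω, Y ω)) ≤ H q (fun ω => Q ω + Y ω - X' ω) + H q (fun ω => Y ω) :=
    subadd hq (by
      intro ω ω' h h' e; have hk := GS.key hG ω ω' h h'; simp only [Prod.mk.injEq] at e ⊢; omega)
  have i15 : H q (fun ω => (X ω, Y ω, X' ω, P ω, Q ω)) + H q (fun ω => (X' ω, Y ω)) ≤ H q (fun ω => (Q ω, X' ω, Y ω)) + H q (fun ω => (X ω, Y ω, X' ω, P ω)) :=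
    submod' hq (by
      intro ω ω' h h' e; have hk := GS.key hG ω ω' h h'; simp only [Prod.mk.injEq] at e ⊢; omega) (by
      intro ω ω' h h' e; have hk := GS.key hG ω ω' h h'; simp only [Prod.mk.injEq] at e ⊢; omega) (by
      intro ω ω' h h' e; have hk := GS.key hG ω ω' h h'; simp only [Prod.mk.injEq] at e ⊢; omega)
  have i16 : H q (fun ω => (X ω, X' ω, Q ω + Y ω)) + H q (fun ω => Q ω + Y ω - X' ω) ≤ H q (fun ω => (X ω, Q ω + Y' ω)) + H q (fun ω => (X' ω, Q ω + Y ω)) :=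
    submod' hq (by
      intro ω ω' h h' e; have hk := GS.key hG ω ω' h h'; simp only [Prod.mk.injEq] at e ⊢; omega) (by
      intro ω ω' h h' e; have hk := GS.key hG ω ω' h h'; simp only [Prod.mk.injEq] at e ⊢; omega) (by
      intro ω ω' h h' e; have hk := GS.key hG ω ω' h h'; simp only [Prod.mk.injEq] at e ⊢; omega)
  have i17 : H q (fun ω => (X ω, Q ω + Y' ω)) ≤ H q (fun ω => X ω) + H q (fun ω => Q ω + Y' ω) :=
    subadd hq (by
      intro ω ω' h h' e; have hk := GS.key hG ω ω' h h'; simp only [Prod.mk.injEq] at e ⊢; omega)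
  have i18 : H q (fun ω => (X' ω, Q ω + Y ω)) ≤ H q (fun ω => X' ω) + H q (fun ω => Q ω + Y ω) :=
    subadd hq (by
      intro ω ω' h h' e; have hk := GS.key hG ω ω' h h'; simp only [Prod.mk.injEq] at e ⊢; omega)
  have i19 : H q (fun ω => (X ω, Y ω, X' ω, P ω, Q ω)) + H q (fun ω => (X ω, X' ω)) ≤ H q (fun ω => (X ω, X' ω, Q ω + Y ω)) + H q (fun ω => (X ω, X' ω, P ω + Y ω)) :=
    submod' hq (by
      intro ω ω' h h' e; have hk := GS.key hG ω ω' h h'; simp only [Prod.mk.injEq] at e ⊢; omega) (by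
      intro ω ω' h h' e; have hk := GS.key hG ω ω' h h'; simp only [Prod.mk.injEq] at e ⊢; omega) (by
      intro ω ω' h h' e; have hk := GS.key hG ω ω' h h'; simp only [Prod.mk.injEq] at e ⊢; omega)
  have i20 : H q (fun ω => (X ω, Y ω, X' ω, P ω, Q ω)) + H q (fun ω => (X ω, X' ω, P ω + Y ω)) ≤ H q (fun ω => (Q ω, X ω, X' ω, P ω + Y ω)) + H q (fun ω => (X ω, Y ω, X' ω, P ω)) :=
    submod' hq (by
      intro ω ω' h h' e; have hk := GS.key hG ω ω' h h'; simp only [Prod.mk.injEq] at e ⊢; omega) (by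
      intro ω ω' h h' e; have hk := GS.key hG ω ω' h h'; simp only [Prod.mk.injEq] at e ⊢; omega) (by
      intro ω ω' h h' e; have hk := GS.key hG ω ω' h h'; simp only [Prod.mk.injEq] at e ⊢; omega)
  have i21 : H q (fun ω => (Q ω, X ω, X' ω, P ω + Y ω)) + H q (fun ω => (Q ω, X ω + Y ω + P ω)) ≤ H q (fun ω => (X ω, Q ω, P ω + Y ω)) + H q (fun ω => (X' ω, Q ω, P ω + Y' ω)) :=
    submod' hq (by
      intro ω ω' h h' e; have hk := GS.key hG ω ω' h h'; simp only [Prod.mk.injEq] at e ⊢; omega) (by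
      intro ω ω' h h' e; have hk := GS.key hG ω ω' h h'; simp only [Prod.mk.injEq] at e ⊢; omega) (by
      intro ω ω' h h' e; have hk := GS.key hG ω ω' h h'; simp only [Prod.mk.injEq] at e ⊢; omega)
  have i22 : H q (fun ω => (X ω, Q ω, P ω + Y ω)) ≤ H q (fun ω => (X ω, Q ω)) + H q (fun ω => P ω + Y ω) :=
    subadd hq (by
      intro ω ω' h h' e; have hk := GS.key hG ω ω' h h'; simp only [Prod.mk.injEq] at e ⊢; omega)
  have i23 : H q (fun ω => (X' ω, Q ω, P ω + Y' ω)) ≤ H q (fun ω => (X' ω, Q ω)) + H q (fun ω => P ω + Y' ω) :=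
    subadd hq (by
      intro ω ω' h h' e; have hk := GS.key hG ω ω' h h'; simp only [Prod.mk.injEq] at e ⊢; omega)
  have i24 : H q (fun ω => (X ω, Q ω)) ≤ H q (fun ω => X ω) + H q (fun ω => Q ω) :=
    subadd hq (by
      intro ω ω' h h' e; have hk := GS.key hG ω ω' h h'; simp only [Prod.mk.injEq] at e ⊢; omega)
  have i25 : H q (fun ω => (X' ω, Q ω)) ≤ H q (fun ω => X' ω) + H q (fun ω => Q ω) :=
    subadd hq (by
      intro ω ω' h h' e; have hk := GS.key hG ω ω' h h'; simp only [Prod.mk.injEq] at e ⊢; omega)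
  have i26 : H q (fun ω => (X ω, Y ω, P ω, Q ω)) + H q (fun ω => X ω + Y ω + P ω) ≤ H q (fun ω => (Q ω, X ω + Y ω + P ω)) + H q (fun ω => (X ω, Y ω, P ω)) :=
    submod' hq (by
      intro ω ω' h h' e; have hk := GS.key hG ω ω' h h'; simp only [Prod.mk.injEq] at e ⊢; omega) (by
      intro ω ω' h h' e; have hk := GS.key hG ω ω' h h'; simp only [Prod.mk.injEq] at e ⊢; omega) (by
      intro ω ω' h h' e; have hk := GS.key hG ω ω' h h'; simp only [Prod.mk.injEq] at e ⊢; omega)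
  have i27 : H q (fun ω => (X ω, Y ω, P ω)) ≤ H q (fun ω => (X ω, Y ω)) + H q (fun ω => P ω) :=
    subadd hq (by
      intro ω ω' h h' e; have hk := GS.key hG ω ω' h h'; simp only [Prod.mk.injEq] at e ⊢; omega)
  have i28 : H q (fun ω => (X ω, P ω + Y' ω, Q ω + X' ω)) + H q (fun ω => X ω + Y ω + P ω + Q ω) ≤ H q (fun ω => (X ω, Y ω + P ω + Q ω)) + H q (fun ω => (P ω + Y' ω, Q ω + X' ω)) :=
    submod' hq (by
      intro ω ω' h h' e; have hk := GS.key hG ω ω' h h'; simp only [Prod.mk.injEq] at e ⊢; omega) (by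
      intro ω ω' h h' e; have hk := GS.key hG ω ω' h h'; simp only [Prod.mk.injEq] at e ⊢; omega) (by
      intro ω ω' h h' e; have hk := GS.key hG ω ω' h h'; simp only [Prod.mk.injEq] at e ⊢; omega)
  have i29 : H q (fun ω => (X ω, Y ω + P ω + Q ω)) ≤ H q (fun ω => X ω) + H q (fun ω => Y ω + P ω + Q ω) :=
    subadd hq (by
      intro ω ω' h h' e; have hk := GS.key hG ω ω' h h'; simp only [Prod.mk.injEq] at e ⊢; omega)
  have i30 : H q (fun ω => (P ω + Y' ω, Q ω + X' ω)) ≤ H q (fun ω => P ω + Y' ω) + H q (fun ω => Q ω + X' ω) :=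
    subadd hq (by
      intro ω ω' h h' e; have hk := GS.key hG ω ω' h h'; simp only [Prod.mk.injEq] at e ⊢; omega)
  have i31 : H q (fun ω => (P ω, Y ω, Y' ω, Q ω + X ω)) + H q (fun ω => (Y' ω, P ω + Y ω)) ≤ H q (fun ω => (P ω, Y ω, Y' ω)) + H q (fun ω => (Y' ω, Q ω + X ω, P ω + Y ω)) :=
    submod' hq (by
      intro ω ω' h h' e; have hk := GS.key hG ω ω' h h'; simp only [Prod.mk.injEq] at e ⊢; omega) (by
      intro ω ω' h h' e; have hk := GS.key hG ω ω' h h'; simp only [Prod.mk.injEq] at e ⊢; omega) (by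
      intro ω ω' h h' e; have hk := GS.key hG ω ω' h h'; simp only [Prod.mk.injEq] at e ⊢; omega)
  have i32 : H q (fun ω => (X ω, Y ω, X' ω, P ω)) ≤ H q (fun ω => (X ω, Y ω, X' ω)) + H q (fun ω => P ω) :=
    subadd hq (by
      intro ω ω' h h' e; have hk := GS.key hG ω ω' h h'; simp only [Prod.mk.injEq] at e ⊢; omega)
  have i33 : H q (fun ω => (Q ω, X ω, X' ω)) ≤ H q (fun ω => Q ω + X ω - X' ω) + H q (fun ω => X ω) :=
    subadd hq (by
      intro ω ω' h h' e; have hk := GS.key hG ω ω' h h'; simp only [Prod.mk.injEq] at e ⊢; omega)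
  have i34 : H q (fun ω => (X ω, Y ω, X' ω, P ω, Q ω)) + H q (fun ω => (X ω, X' ω)) ≤ H q (fun ω => (Q ω, X ω, X' ω)) + H q (fun ω => (X ω, Y ω, X' ω, P ω)) :=
    submod' hq (by
      intro ω ω' h h' e; have hk := GS.key hG ω ω' h h'; simp only [Prod.mk.injEq] at e ⊢; omega) (by
      intro ω ω' h h' e; have hk := GS.key hG ω ω' h h'; simp only [Prod.mk.injEq] at e ⊢; omega) (by
      intro ω ω' h h' e; have hk := GS.key hG ω ω' h h'; simp only [Prod.mk.injEq] at e ⊢; omega)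
  have i35 : H q (fun ω => (Y ω, X' ω, Q ω + Y' ω)) + H q (fun ω => Q ω + X ω - X' ω) ≤ H q (fun ω => (Y ω, Q ω + Y' ω)) + H q (fun ω => (X' ω, Q ω + X ω)) :=
    submod' hq (by
      intro ω ω' h h' e; have hk := GS.key hG ω ω' h h'; simp only [Prod.mk.injEq] at e ⊢; omega) (by
      intro ω ω' h h' e; have hk := GS.key hG ω ω' h h'; simp only [Prod.mk.injEq] at e ⊢; omega) (by
      intro ω ω' h h' e; have hk := GS.key hG ω ω' h h'; simp only [Prod.mk.injEq] at e ⊢; omega)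
  have i36 : H q (fun ω => (Y ω, Q ω + Y' ω)) ≤ H q (fun ω => Y ω) + H q (fun ω => Q ω + Y' ω) :=
    subadd hq (by
      intro ω ω' h h' e; have hk := GS.key hG ω ω' h h'; simp only [Prod.mk.injEq] at e ⊢; omega)
  have i37 : H q (fun ω => (X' ω, Q ω + X ω)) ≤ H q (fun ω => X' ω) + H q (fun ω => Q ω + X ω) :=
    subadd hq (by
      intro ω ω' h h' e; have hk := GS.key hG ω ω' h h'; simp only [Prod.mk.injEq] at e ⊢; omega)
  have i38 : H q (fun ω => (Q ω, X ω, X' ω)) ≤ H q (fun ω => Q ω) + H q (fun ω => (X ω, X' ω)) :=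
    subadd hq (by
      intro ω ω' h h' e; have hk := GS.key hG ω ω' h h'; simp only [Prod.mk.injEq] at e ⊢; omega)
  have i39 : H q (fun ω => (P ω, Y' ω, X ω)) ≤ H q (fun ω => P ω + X ω - Y' ω) + H q (fun ω => X ω) :=
    subadd hq (by
      intro ω ω' h h' e; have hk := GS.key hG ω ω' h h'; simp only [Prod.mk.injEq] at e ⊢; omega)
  have i40 : H q (fun ω => (X ω, Y ω, X' ω, P ω, Q ω)) + H q (fun ω => (Y' ω, X ω)) ≤ H q (fun ω => (P ω, Y' ω, X ω)) + H q (fun ω => (X ω, Y ω, X' ω, Q ω)) :=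
    submod' hq (by
      intro ω ω' h h' e; have hk := GS.key hG ω ω' h h'; simp only [Prod.mk.injEq] at e ⊢; omega) (by
      intro ω ω' h h' e; have hk := GS.key hG ω ω' h h'; simp only [Prod.mk.injEq] at e ⊢; omega) (by
      intro ω ω' h h' e; have hk := GS.key hG ω ω' h h'; simp only [Prod.mk.injEq] at e ⊢; omega)
  have i41 : H q (fun ω => (Y ω, Y' ω, P ω + X ω)) + H q (fun ω => P ω + X ω - Y' ω) ≤ H q (fun ω => (Y ω, P ω + X' ω)) + H q (fun ω => (Y' ω, P ω + X ω)) :=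
    submod' hq (by
      intro ω ω' h h' e; have hk := GS.key hG ω ω' h h'; simp only [Prod.mk.injEq] at e ⊢; omega) (by
      intro ω ω' h h' e; have hk := GS.key hG ω ω' h h'; simp only [Prod.mk.injEq] at e ⊢; omega) (by
      intro ω ω' h h' e; have hk := GS.key hG ω ω' h h'; simp only [Prod.mk.injEq] at e ⊢; omega)
  have i42 : H q (fun ω => (Y ω, P ω + X' ω)) ≤ H q (fun ω => Y ω) + H q (fun ω => P ω + X' ω) :=
    subadd hq (by
      intro ω ω' h h' e; have hk := GS.key hG ω ω' h h'; simp only [Prod.mk.injEq] at e ⊢; omega)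
  have i43 : H q (fun ω => (Y' ω, P ω + X ω)) ≤ H q (fun ω => Y' ω) + H q (fun ω => P ω + X ω) :=
    subadd hq (by
      intro ω ω' h h' e; have hk := GS.key hG ω ω' h h'; simp only [Prod.mk.injEq] at e ⊢; omega)
  have i44 : H q (fun ω => (X ω, Y ω, X' ω, P ω, Q ω)) + H q (fun ω => (Y ω, Y' ω)) ≤ H q (fun ω => (Y ω, Y' ω, P ω + X ω)) + H q (fun ω => (Y ω, Y' ω, Q ω + X ω)) :=
    submod' hq (by
      intro ω ω' h h' e; have hk := GS.key hG ω ω' h h'; simp only [Prod.mk.injEq] at e ⊢; omega) (by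
      intro ω ω' h h' e; have hk := GS.key hG ω ω' h h'; simp only [Prod.mk.injEq] at e ⊢; omega) (by
      intro ω ω' h h' e; have hk := GS.key hG ω ω' h h'; simp only [Prod.mk.injEq] at e ⊢; omega)
  have i45 : H q (fun ω => (X ω, Y ω, X' ω, P ω, Q ω)) + H q (fun ω => (Y ω, Y' ω, Q ω + X ω)) ≤ H q (fun ω => (P ω, Y ω, Y' ω, Q ω + X ω)) + H q (fun ω => (X ω, Y ω, X' ω, Q ω)) :=
    submod' hq (by
      intro ω ω' h h' e; have hk := GS.key hG ω ω' h h'; simp only [Prod.mk.injEq] at e ⊢; omega) (by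
      intro ω ω' h h' e; have hk := GS.key hG ω ω' h h'; simp only [Prod.mk.injEq] at e ⊢; omega) (by
      intro ω ω' h h' e; have hk := GS.key hG ω ω' h h'; simp only [Prod.mk.injEq] at e ⊢; omega)
  have i46 : H q (fun ω => (P ω, Y ω, Y' ω, Q ω + X ω)) + H q (fun ω => (P ω, X ω + Y ω + Q ω)) ≤ H q (fun ω => (Y ω, P ω, Q ω + X ω)) + H q (fun ω => (Y' ω, P ω, Q ω + X' ω)) :=
    submod' hq (by
      intro ω ω' h h' e; have hk := GS.key hG ω ω' h h'; simp only [Prod.mk.injEq] at e ⊢; omega) (by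
      intro ω ω' h h' e; have hk := GS.key hG ω ω' h h'; simp only [Prod.mk.injEq] at e ⊢; omega) (by
      intro ω ω' h h' e; have hk := GS.key hG ω ω' h h'; simp only [Prod.mk.injEq] at e ⊢; omega)
  have i47 : H q (fun ω => (Y ω, P ω, Q ω + X ω)) ≤ H q (fun ω => (Y ω, P ω)) + H q (fun ω => Q ω + X ω) :=
    subadd hq (by
      intro ω ω' h h' e; have hk := GS.key hG ω ω' h h'; simp only [Prod.mk.injEq] at e ⊢; omega)
  have i48 : H q (fun ω => (Y' ω, P ω, Q ω + X' ω)) ≤ H q (fun ω => (Y' ω, P ω)) + H q (fun ω => Q ω + X' ω) :=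
    subadd hq (by
      intro ω ω' h h' e; have hk := GS.key hG ω ω' h h'; simp only [Prod.mk.injEq] at e ⊢; omega)
  have i49 : H q (fun ω => (Y ω, P ω)) ≤ H q (fun ω => Y ω) + H q (fun ω => P ω) :=
    subadd hq (by
      intro ω ω' h h' e; have hk := GS.key hG ω ω' h h'; simp only [Prod.mk.injEq] at e ⊢; omega)
  have i50 : H q (fun ω => (Y' ω, P ω)) ≤ H q (fun ω => Y' ω) + H q (fun ω => P ω) :=
    subadd hq (by
      intro ω ω' h h' e; have hk := GS.key hG ω ω' h h'; simp only [Prod.mk.injEq] at e ⊢; omega)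
  have i51 : H q (fun ω => (X ω, Y ω, P ω, Q ω)) + H q (fun ω => X ω + Y ω + Q ω) ≤ H q (fun ω => (P ω, X ω + Y ω + Q ω)) + H q (fun ω => (X ω, Y ω, Q ω)) :=
    submod' hq (by
      intro ω ω' h h' e; have hk := GS.key hG ω ω' h h'; simp only [Prod.mk.injEq] at e ⊢; omega) (by
      intro ω ω' h h' e; have hk := GS.key hG ω ω' h h'; simp only [Prod.mk.injEq] at e ⊢; omega) (by
      intro ω ω' h h' e; have hk := GS.key hG ω ω' h h'; simp only [Prod.mk.injEq] at e ⊢; omega)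
  have i52 : H q (fun ω => (X ω, Y ω, Q ω)) ≤ H q (fun ω => (X ω, Y ω)) + H q (fun ω => Q ω) :=
    subadd hq (by
      intro ω ω' h h' e; have hk := GS.key hG ω ω' h h'; simp only [Prod.mk.injEq] at e ⊢; omega)
  have i53 : H q (fun ω => (Y ω, Q ω + X' ω, P ω + Y' ω)) + H q (fun ω => X ω + Y ω + P ω + Q ω) ≤ H q (fun ω => (Y ω, X ω + P ω + Q ω)) + H q (fun ω => (Q ω + X' ω, P ω + Y' ω)) :=
    submod' hq (by
      intro ω ω' h h' e; have hk := GS.key hG ω ω' h h'; simp only [Prod.mk.injEq] at e ⊢; omega) (by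
      intro ω ω' h h' e; have hk := GS.key hG ω ω' h h'; simp only [Prod.mk.injEq] at e ⊢; omega) (by
      intro ω ω' h h' e; have hk := GS.key hG ω ω' h h'; simp only [Prod.mk.injEq] at e ⊢; omega)
  have i54 : H q (fun ω => (Y ω, X ω + P ω + Q ω)) ≤ H q (fun ω => Y ω) + H q (fun ω => X ω + P ω + Q ω) :=
    subadd hq (by
      intro ω ω' h h' e; have hk := GS.key hG ω ω' h h'; simp only [Prod.mk.injEq] at e ⊢; omega)
  have i55 : H q (fun ω => (Q ω + X' ω, P ω + Y' ω)) ≤ H q (fun ω => Q ω + X' ω) + H q (fun ω => P ω + Y' ω) :=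
    subadd hq (by
      intro ω ω' h h' e; have hk := GS.key hG ω ω' h h'; simp only [Prod.mk.injEq] at e ⊢; omega)
  have i56 : H q (fun ω => (Q ω, X ω, X' ω, P ω + Y ω)) + H q (fun ω => (X' ω, Q ω + X ω)) ≤ H q (fun ω => (Q ω, X ω, X' ω)) + H q (fun ω => (X' ω, P ω + Y ω, Q ω + X ω)) :=
    submod' hq (by
      intro ω ω' h h' e; have hk := GS.key hG ω ω' h h'; simp only [Prod.mk.injEq] at e ⊢; omega) (by
      intro ω ω' h h' e; have hk := GS.key hG ω ω' h h'; simp only [Prod.mk.injEq] at e ⊢; omega) (by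
      intro ω ω' h h' e; have hk := GS.key hG ω ω' h h'; simp only [Prod.mk.injEq] at e ⊢; omega)
  have i57 : H q (fun ω => (X ω, Y ω, X' ω, Q ω)) ≤ H q (fun ω => (X ω, Y ω, X' ω)) + H q (fun ω => Q ω) :=
    subadd hq (by
      intro ω ω' h h' e; have hk := GS.key hG ω ω' h h'; simp only [Prod.mk.injEq] at e ⊢; omega)
  have i58 : H q (fun ω => (X ω, Y ω, X' ω, P ω, Q ω)) + H q (fun ω => (X' ω, Y ω)) ≤ H q (fun ω => (X' ω, Y ω, Q ω + Y' ω)) + H q (fun ω => (X' ω, Y ω, P ω + X ω)) :=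
    submod' hq (by
      intro ω ω' h h' e; have hk := GS.key hG ω ω' h h'; simp only [Prod.mk.injEq] at e ⊢; omega) (by
      intro ω ω' h h' e; have hk := GS.key hG ω ω' h h'; simp only [Prod.mk.injEq] at e ⊢; omega) (by
      intro ω ω' h h' e; have hk := GS.key hG ω ω' h h'; simp only [Prod.mk.injEq] at e ⊢; omega)
  have c59 : H q (fun ω => (X ω, Y' ω)) = H q (fun ω => (X' ω, Y ω)) :=
    hG.inv (fun X Y X' Y' P Q => (X, Y'))
  have c60 : H q (fun ω => (X ω, Y' ω, P ω + X' ω)) = H q (fun ω => (X' ω, Y ω, P ω + X ω)) :=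
    hG.inv (fun X Y X' Y' P Q => (X, Y', P + X'))
  have e61 : H q (fun ω => (Y ω, X' ω, Q ω + Y' ω)) = H q (fun ω => (X' ω, Y ω, Q ω + Y' ω)) :=
    H_congr hq (by
      intro ω ω' h h' e; have hk := GS.key hG ω ω' h h'; simp only [Prod.mk.injEq] at e ⊢; omega) (by
      intro ω ω' h h' e; have hk := GS.key hG ω ω' h h'; simp only [Prod.mk.injEq] at e ⊢; omega)
  have c62 : H q (fun ω => (X ω, P ω + Y' ω, Q ω + X' ω)) = H q (fun ω => (X' ω, P ω + Y ω, Q ω + X ω)) :=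
    hG.inv (fun X Y X' Y' P Q => (X, P + Y', Q + X'))
  have c63 : H q (fun ω => (Y ω, Q ω + X' ω, P ω + Y' ω)) = H q (fun ω => (Y' ω, Q ω + X ω, P ω + Y ω)) :=
    hG.inv (fun X Y X' Y' P Q => (Y, Q + X', P + Y'))
  have e64 : H q (fun ω => (Y' ω, X ω)) = H q (fun ω => (X ω, Y' ω)) :=
    H_congr hq (by
      intro ω ω' h h' e; have hk := GS.key hG ω ω' h h'; simp only [Prod.mk.injEq] at e ⊢; omega) (by
      intro ω ω' h h' e; have hk := GS.key hG ω ω' h h'; simp only [Prod.mk.injEq] at e ⊢; omega)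
  have oX : H q (fun ω => X ω) ≤ Real.log A.card := hG.one _ (fun ω h => (hG.mem ω h).1)
  have oY : H q (fun ω => Y ω) ≤ Real.log A.card := hG.one _ (fun ω h => (hG.mem ω h).2.1)
  have oA : H q (fun ω => X' ω) ≤ Real.log A.card := hG.one _ (fun ω h => (hG.mem ω h).2.2.1)
  have oB : H q (fun ω => Y' ω) ≤ Real.log A.card := hG.one _ (fun ω h => (hG.mem ω h).2.2.2.1)
  have oP : H q (fun ω => P ω) ≤ Real.log A.card := hG.one _ (fun ω h => (hG.mem ω h).2.2.2.2.1)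
  have oQ : H q (fun ω => Q ω) ≤ Real.log A.card := hG.one _ (fun ω h => (hG.mem ω h).2.2.2.2.2)
  have sPX : H q (fun ω => P ω + X ω) ≤ Real.log (A + A).card := hG.two _ _ (fun ω h => (hG.mem ω h).2.2.2.2.1) (fun ω h => (hG.mem ω h).1)
  have sPY : H q (fun ω => P ω + Y ω) ≤ Real.log (A + A).card := hG.two _ _ (fun ω h => (hG.mem ω h).2.2.2.2.1) (fun ω h => (hG.mem ω h).2.1)
  have sPA : H q (fun ω => P ω + X' ω) ≤ Real.log (A + A).card := hG.two _ _ (fun ω h => (hG.mem ω h).2.2.2.2.1) (fun ω h => (hG.mem ω h).2.2.1)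
  have sPB : H q (fun ω => P ω + Y' ω) ≤ Real.log (A + A).card := hG.two _ _ (fun ω h => (hG.mem ω h).2.2.2.2.1) (fun ω h => (hG.mem ω h).2.2.2.1)
  have sQX : H q (fun ω => Q ω + X ω) ≤ Real.log (A + A).card := hG.two _ _ (fun ω h => (hG.mem ω h).2.2.2.2.2) (fun ω h => (hG.mem ω h).1)
  have sQY : H q (fun ω => Q ω + Y ω) ≤ Real.log (A + A).card := hG.two _ _ (fun ω h => (hG.mem ω h).2.2.2.2.2) (fun ω h => (hG.mem ω h).2.1)
  have sQA : H q (fun ω => Q ω + X' ω) ≤ Real.log (A + A).card := hG.two _ _ (fun ω h => (hG.mem ω h).2.2.2.2.2) (fun ω h => (hG.mem ω h).2.2.1)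
  have sQB : H q (fun ω => Q ω + Y' ω) ≤ Real.log (A + A).card := hG.two _ _ (fun ω h => (hG.mem ω h).2.2.2.2.2) (fun ω h => (hG.mem ω h).2.2.2.1)
  have sXY : H q (fun ω => X ω + Y ω) ≤ Real.log (A + A).card := hG.two _ _ (fun ω h => (hG.mem ω h).1) (fun ω h => (hG.mem ω h).2.1)
  linarith

end Pool.Agent.TH404.SD
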