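import Pool.Agent.TH404.SD.Abs

/-!
# From a law on `K_{3,2}` to the configuration
-/

set_option autoImplicit false
set_option linter.unusedVariables false
set_option linter.unusedSectionVars false

open scoped Pointwise Classical

namespace Pool.Agent.TH404.SD
open Pool.Agent.W904.AK

section Gen

variable {Ω : Type} [Fintype Ω] {α γ : Type}

/-- Entropies are invariant under bijections preserving the law. -/
theorem H_equiv (p : Ω → ℝ) (e : Ω ≃ Ω) (he : ∀ ω, p (e ω) = p ω) (f : Ω → α) :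
    H p (fun ω => f (e ω)) = H p f := by
  have h1 : ∀ a, im p (fun ω => f (e ω)) a = im p f a := by
    intro a
    rw [im_eq_sum, im_eq_sum, ← Equiv.sum_comp e (fun x => if f x = a then p x else 0)]
    refine Finset.sum_congr rfl fun x _ => ?_
    rw [he]
  unfold H
  rw [← Equiv.sum_comp e (fun x => p x * -Real.log (im p f (f x)))]
  refine Finset.sum_congr rfl fun x _ => ?_
  rw [he, h1]

/-- Functions equal on the support have the same entropy. -/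
theorem H_supp {q : Ω → ℝ} (hq : IsLaw q) {f g : Ω → α} (h : ∀ z, q z ≠ 0 → f z = g z) :
    H q f = H q g := by
  refine H_congr hq ?_ ?_
  · intro z z' hz hz' e
    rw [← h z hz, ← h z' hz', e]
  · intro z z' hz hz' e
    rw [h z hz, h z' hz', e]

theorem glue_swap (p : Ω → ℝ) (f : Ω → γ) (z : Ω × Ω) :
    glue p p f f (Equiv.prodComm Ω Ω z) = glue p p f f z := by
  show (if f z.2 = f z.1 then p z.2 * p z.1 / im p f (f z.2) else 0) =
    (if f z.1 = f z.2 then p z.1 * p z.2 / im p f (f z.1) else 0)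
  by_cases h : f z.1 = f z.2
  · rw [if_pos h, if_pos h.symm, h, mul_comm]
  · rw [if_neg h, if_neg (fun h' : f z.2 = f z.1 => h h'.symm)]

theorem im_equiv (p : Ω → ℝ) (e : Ω ≃ Ω) (he : ∀ ω, p (e ω) = p ω) (f : Ω → γ) (π : γ → γ)
    (hπ : Function.Injective π) (hf : ∀ ω, f (e ω) = π (f ω)) (c : γ) :
    im p f (π c) = im p f c := by
  rw [im_eq_sum, im_eq_sum, ← Equiv.sum_comp e (fun x => if f x = π c then p x else 0)]
  refine Finset.sum_congr rfl fun x _ => ?_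
  rw [he, hf]
  by_cases h : f x = c
  · rw [if_pos h, if_pos (by rw [h])]
  · rw [if_neg h, if_neg (fun h' => h (hπ h'))]

theorem glue_equiv (p : Ω → ℝ) (e : Ω ≃ Ω) (he : ∀ ω, p (e ω) = p ω) (f : Ω → γ) (π : γ → γ)
    (hπ : Function.Injective π) (hf : ∀ ω, f (e ω) = π (f ω)) (z : Ω × Ω) :
    glue p p f f (Equiv.prodCongr e e z) = glue p p f f z := by
  show (if f (e z.1) = f (e z.2) then p (e z.1) * p (e z.2) / im p f (f (e z.1)) else 0) =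
    (if f z.1 = f z.2 then p z.1 * p z.2 / im p f (f z.1) else 0)
  by_cases h : f z.1 = f z.2
  · have h1 : f (e z.1) = f (e z.2) := by rw [hf, hf, h]
    rw [if_pos h, if_pos h1, he, he, hf, im_equiv p e he f π hπ hf]
  · have h1 : ¬ f (e z.1) = f (e z.2) := by
      rw [hf, hf]
      exact fun h' => h (hπ h')
    rw [if_neg h, if_neg h1]

end Gen

/-- A law on `K_{3,2}`. -/
structure K32 {Ω : Type} [Fintype Ω] (κ : Ω → ℝ) (x0 x1 x2 y0 y1 : Ω → ℤ) (A : Finset ℤ)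
    (δ : ℝ) : Prop where
  law : IsLaw κ
  mem : ∀ ω, κ ω ≠ 0 → x0 ω ∈ A ∧ x1 ω ∈ A ∧ x2 ω ∈ A ∧ y0 ω ∈ A ∧ y1 ω ∈ A
  s00 : Spec κ x0 y0
  s01 : Spec κ x0 y1
  s10 : Spec κ x1 y0
  s11 : Spec κ x1 y1
  ent : 5 * Real.log A.card - δ ≤ H κ (fun ω => (x0 ω, x1 ω, x2 ω, y0 ω, y1 ω))
  px01 : ∀ {α : Type} (F : ℤ → ℤ → ℤ → ℤ → ℤ → α),
    H κ (fun ω => F (x0 ω) (x1 ω) (x2 ω) (y0 ω) (y1 ω)) =
      H κ (fun ω => F (x1 ω) (x0 ω) (x2 ω) (y0 ω) (y1 ω))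
  px12 : ∀ {α : Type} (F : ℤ → ℤ → ℤ → ℤ → ℤ → α),
    H κ (fun ω => F (x0 ω) (x1 ω) (x2 ω) (y0 ω) (y1 ω)) =
      H κ (fun ω => F (x0 ω) (x2 ω) (x1 ω) (y0 ω) (y1 ω))
  py : ∀ {α : Type} (F : ℤ → ℤ → ℤ → ℤ → ℤ → α),
    H κ (fun ω => F (x0 ω) (x1 ω) (x2 ω) (y0 ω) (y1 ω)) =
      H κ (fun ω => F (x0 ω) (x1 ω) (x2 ω) (y1 ω) (y0 ω))

namespace K32

variable {Ω : Type} [Fintype Ω] {κ : Ω → ℝ} {x0 x1 x2 y0 y1 : Ω → ℤ} {A : Finset ℤ} {δ : ℝ}

theorem key (hK : K32 κ x0 x1 x2 y0 y1 A δ) (ω ω' : Ω) (h : κ ω ≠ 0) (h' : κ ω' ≠ 0) :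
    (x0 ω - y0 ω = x0 ω' - y0 ω' → x0 ω = x0 ω' ∧ y0 ω = y0 ω') ∧
    (x0 ω - y1 ω = x0 ω' - y1 ω' → x0 ω = x0 ω' ∧ y1 ω = y1 ω') ∧
    (x1 ω - y0 ω = x1 ω' - y0 ω' → x1 ω = x1 ω' ∧ y0 ω = y0 ω') ∧
    (x1 ω - y1 ω = x1 ω' - y1 ω' → x1 ω = x1 ω' ∧ y1 ω = y1 ω') :=
  ⟨hK.s00 ω ω' h h', hK.s01 ω ω' h h', hK.s10 ω ω' h h', hK.s11 ω ω' h h'⟩

end K32

namespace K32

variable {Ω : Type} [Fintype Ω] {κ : Ω → ℝ} {x0 x1 x2 y0 y1 : Ω → ℤ} {A : Finset ℤ} {δ : ℝ}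

set_option maxHeartbeats 4000000 in
theorem top (hK : K32 κ x0 x1 x2 y0 y1 A δ) :
    H κ (fun ω => x0 ω + y0 ω + x1 ω) + H κ (fun ω => x0 ω + y0 ω + y1 ω) +
      2 * Real.log A.card - 3 * δ ≤ 3 * H κ (fun ω => x0 ω + y0 ω + x1 ω + y1 ω) := by
  have hq := hK.law
  have ent := hK.ent
  have a1 : H κ (fun ω => (x1 ω, y0 ω, x0 ω + x2 ω + y1 ω)) ≤
      H κ (fun ω => x0 ω + y0 ω + x2 ω + y1 ω) + H κ (fun ω => x0 ω + x1 ω + x2 ω + y1 ω) :=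
    subadd hq (by
      intro ω ω' h h' e; have hk := K32.key hK ω ω' h h'; simp only [Prod.mk.injEq] at e ⊢; omega)
  have a2 : H κ (fun ω => (x0 ω, x1 ω, x2 ω, y0 ω, y1 ω)) +
      H κ (fun ω => x0 ω + x2 ω + y1 ω) ≤
      H κ (fun ω => (x1 ω, y0 ω, x0 ω + x2 ω + y1 ω)) + H κ (fun ω => (x0 ω, x2 ω, y1 ω)) :=
    submod' hq (by
      intro ω ω' h h' e; have hk := K32.key hK ω ω' h h'; simp only [Prod.mk.injEq] at e ⊢; omega) (by
      intro ω ω' h h' e; have hk := K32.key hK ω ω' h h'; simp only [Prod.mk.injEq] at e ⊢; omega) (by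
      intro ω ω' h h' e; have hk := K32.key hK ω ω' h h'; simp only [Prod.mk.injEq] at e ⊢; omega)
  have a3 : H κ (fun ω => (x0 ω, x2 ω, y1 ω)) ≤ H κ (fun ω => x0 ω) +
      H κ (fun ω => (x2 ω, y1 ω)) := subadd hq (by
      intro ω ω' h h' e; have hk := K32.key hK ω ω' h h'; simp only [Prod.mk.injEq] at e ⊢; omega)
  have a4 : H κ (fun ω => (x2 ω, y1 ω)) ≤ H κ (fun ω => x2 ω) + H κ (fun ω => y1 ω) :=
    subadd hq (by
      intro ω ω' h h' e; have hk := K32.key hK ω ω' h h'; simp only [Prod.mk.injEq] at e ⊢; omega)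
  have b1 : H κ (fun ω => (x0 ω + x1 ω + x2 ω + y1 ω, y0 ω)) ≤
      H κ (fun ω => x0 ω + x1 ω + x2 ω + y0 ω + y1 ω) + H κ (fun ω => y0 ω) :=
    subadd hq (by
      intro ω ω' h h' e; have hk := K32.key hK ω ω' h h'; simp only [Prod.mk.injEq] at e ⊢; omega)
  have b2 : H κ (fun ω => (x0 ω, x1 ω, x2 ω, y0 ω, y1 ω)) +
      H κ (fun ω => x0 ω + x1 ω + x2 ω + y1 ω) ≤
      H κ (fun ω => (x0 ω + x1 ω + x2 ω + y1 ω, y0 ω)) +
        H κ (fun ω => (x0 ω, x1 ω, x2 ω, y1 ω)) :=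
    submod' hq (by
      intro ω ω' h h' e; have hk := K32.key hK ω ω' h h'; simp only [Prod.mk.injEq] at e ⊢; omega) (by
      intro ω ω' h h' e; have hk := K32.key hK ω ω' h h'; simp only [Prod.mk.injEq] at e ⊢; omega) (by
      intro ω ω' h h' e; have hk := K32.key hK ω ω' h h'; simp only [Prod.mk.injEq] at e ⊢; omega)
  have b3 : H κ (fun ω => (x0 ω, x1 ω, x2 ω, y1 ω)) ≤ H κ (fun ω => (x0 ω, x2 ω, y1 ω)) +
      H κ (fun ω => x1 ω) := subadd hq (by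
      intro ω ω' h h' e; have hk := K32.key hK ω ω' h h'; simp only [Prod.mk.injEq] at e ⊢; omega)
  have c1 : H κ (fun ω => (x0 ω, x1 ω, x2 ω + y0 ω + y1 ω)) +
      H κ (fun ω => x0 ω + x1 ω + x2 ω + y0 ω + y1 ω) ≤
      H κ (fun ω => (x0 ω, x1 ω + x2 ω + y0 ω + y1 ω)) +
        H κ (fun ω => (x1 ω, x0 ω + x2 ω + y0 ω + y1 ω)) :=
    submod' hq (by
      intro ω ω' h h' e; have hk := K32.key hK ω ω' h h'; simp only [Prod.mk.injEq] at e ⊢; omega) (by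
      intro ω ω' h h' e; have hk := K32.key hK ω ω' h h'; simp only [Prod.mk.injEq] at e ⊢; omega) (by
      intro ω ω' h h' e; have hk := K32.key hK ω ω' h h'; simp only [Prod.mk.injEq] at e ⊢; omega)
  have c2 : H κ (fun ω => (x0 ω, x1 ω + x2 ω + y0 ω + y1 ω)) ≤ H κ (fun ω => x0 ω) +
      H κ (fun ω => x1 ω + x2 ω + y0 ω + y1 ω) := subadd hq (by
      intro ω ω' h h' e; have hk := K32.key hK ω ω' h h'; simp only [Prod.mk.injEq] at e ⊢; omega)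
  have c3 : H κ (fun ω => (x1 ω, x0 ω + x2 ω + y0 ω + y1 ω)) ≤ H κ (fun ω => x1 ω) +
      H κ (fun ω => x0 ω + x2 ω + y0 ω + y1 ω) := subadd hq (by
      intro ω ω' h h' e; have hk := K32.key hK ω ω' h h'; simp only [Prod.mk.injEq] at e ⊢; omega)
  have c4 : H κ (fun ω => (x0 ω, x1 ω, x2 ω, y0 ω, y1 ω)) + H κ (fun ω => x2 ω + y0 ω + y1 ω) ≤
      H κ (fun ω => (x0 ω, x1 ω, x2 ω + y0 ω + y1 ω)) + H κ (fun ω => (x2 ω, y0 ω, y1 ω)) :=
    submod' hq (by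
      intro ω ω' h h' e; have hk := K32.key hK ω ω' h h'; simp only [Prod.mk.injEq] at e ⊢; omega) (by
      intro ω ω' h h' e; have hk := K32.key hK ω ω' h h'; simp only [Prod.mk.injEq] at e ⊢; omega) (by
      intro ω ω' h h' e; have hk := K32.key hK ω ω' h h'; simp only [Prod.mk.injEq] at e ⊢; omega)
  have c5 : H κ (fun ω => (x2 ω, y0 ω, y1 ω)) ≤ H κ (fun ω => (x2 ω, y1 ω)) +
      H κ (fun ω => y0 ω) := subadd hq (by
      intro ω ω' h h' e; have hk := K32.key hK ω ω' h h'; simp only [Prod.mk.injEq] at e ⊢; omega)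
  have o0 : H κ (fun ω => x0 ω) ≤ Real.log A.card :=
    H_le_log_card hq _ A fun ω h => (hK.mem ω h).1
  have o1 : H κ (fun ω => x1 ω) ≤ Real.log A.card :=
    H_le_log_card hq _ A fun ω h => (hK.mem ω h).2.1
  have o2 : H κ (fun ω => x2 ω) ≤ Real.log A.card :=
    H_le_log_card hq _ A fun ω h => (hK.mem ω h).2.2.1
  have o3 : H κ (fun ω => y0 ω) ≤ Real.log A.card :=
    H_le_log_card hq _ A fun ω h => (hK.mem ω h).2.2.2.1
  have o4 : H κ (fun ω => y1 ω) ≤ Real.log A.card :=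
    H_le_log_card hq _ A fun ω h => (hK.mem ω h).2.2.2.2
  -- symmetries
  have e1 : H κ (fun ω => x0 ω + y0 ω + x1 ω + y1 ω) = H κ (fun ω => x0 ω + y0 ω + x2 ω + y1 ω) :=
    hK.px12 (fun x0 x1 x2 y0 y1 => x0 + y0 + x1 + y1)
  have e2 : H κ (fun ω => x0 ω + y0 ω + x2 ω + y1 ω) = H κ (fun ω => x1 ω + y0 ω + x2 ω + y1 ω) :=
    hK.px01 (fun x0 x1 x2 y0 y1 => x0 + y0 + x2 + y1)
  have e3 : H κ (fun ω => x0 ω + x2 ω + y0 ω + y1 ω) = H κ (fun ω => x0 ω + y0 ω + x2 ω + y1 ω) :=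
    H_congr hq (by
      intro ω ω' h h' e; have hk := K32.key hK ω ω' h h'; simp only [Prod.mk.injEq] at e ⊢; omega) (by
      intro ω ω' h h' e; have hk := K32.key hK ω ω' h h'; simp only [Prod.mk.injEq] at e ⊢; omega)
  have e4 : H κ (fun ω => x1 ω + x2 ω + y0 ω + y1 ω) = H κ (fun ω => x1 ω + y0 ω + x2 ω + y1 ω) :=
    H_congr hq (by
      intro ω ω' h h' e; have hk := K32.key hK ω ω' h h'; simp only [Prod.mk.injEq] at e ⊢; omega) (by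
      intro ω ω' h h' e; have hk := K32.key hK ω ω' h h'; simp only [Prod.mk.injEq] at e ⊢; omega)
  have e5 : H κ (fun ω => x0 ω + y0 ω + x1 ω) = H κ (fun ω => x0 ω + y0 ω + x2 ω) :=
    hK.px12 (fun x0 x1 x2 y0 y1 => x0 + y0 + x1)
  have e6 : H κ (fun ω => x0 ω + y0 ω + x2 ω) = H κ (fun ω => x0 ω + y1 ω + x2 ω) :=
    hK.py (fun x0 x1 x2 y0 y1 => x0 + y0 + x2)
  have e7 : H κ (fun ω => x0 ω + x2 ω + y1 ω) = H κ (fun ω => x0 ω + y1 ω + x2 ω) :=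
    H_congr hq (by
      intro ω ω' h h' e; have hk := K32.key hK ω ω' h h'; simp only [Prod.mk.injEq] at e ⊢; omega) (by
      intro ω ω' h h' e; have hk := K32.key hK ω ω' h h'; simp only [Prod.mk.injEq] at e ⊢; omega)
  have e8 : H κ (fun ω => x0 ω + y0 ω + y1 ω) = H κ (fun ω => x1 ω + y0 ω + y1 ω) :=
    hK.px01 (fun x0 x1 x2 y0 y1 => x0 + y0 + y1)
  have e9 : H κ (fun ω => x1 ω + y0 ω + y1 ω) = H κ (fun ω => x2 ω + y0 ω + y1 ω) :=
    hK.px12 (fun x0 x1 x2 y0 y1 => x1 + y0 + y1)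
  linarith

/-- The index of the gluing: the sum `x0 + y0` and the parameters. -/
def T (x0 x1 y0 y1 : Ω → ℤ) (ω : Ω) : ℤ × ℤ × ℤ := (x0 ω + y0 ω, x1 ω, y1 ω)

set_option maxHeartbeats 4000000 in
theorem gs (hK : K32 κ x0 x1 x2 y0 y1 A δ) :
    GS (glue κ κ (T x0 x1 y0 y1) (T x0 x1 y0 y1)) (fun z => x0 z.1) (fun z => y0 z.1)
      (fun z => x0 z.2) (fun z => y0 z.2) (fun z => x1 z.1) (fun z => y1 z.1) A δ := by
  have hq := hK.law
  have hg : IsLaw (glue κ κ (T x0 x1 y0 y1) (T x0 x1 y0 y1)) := glue_law hq hq fun _ => rfl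
  have supp : ∀ z, glue κ κ (T x0 x1 y0 y1) (T x0 x1 y0 y1) z ≠ 0 →
      (x0 z.1 + y0 z.1 = x0 z.2 + y0 z.2 ∧ x1 z.1 = x1 z.2 ∧ y1 z.1 = y1 z.2) ∧
        κ z.1 ≠ 0 ∧ κ z.2 ≠ 0 := by
    intro z hz
    obtain ⟨h1, h2, h3⟩ := glue_supp hz
    simp only [T, Prod.mk.injEq] at h1
    exact ⟨h1, h2, h3⟩
  have fst : ∀ {α : Type} (u : Ω → α), H (glue κ κ (T x0 x1 y0 y1) (T x0 x1 y0 y1))
      (fun z => u z.1) = H κ u := fun u => H_glue_fst hq (fun _ => rfl) u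
  refine ⟨hg, ?_, ?_, ?_, ?_, ?_, ?_, ?_, ?_, ?_, ?_, ?_, ?_, ?_, ?_, ?_⟩
  · intro z hz
    obtain ⟨_, h2, h3⟩ := supp z hz
    have m1 := hK.mem _ h2
    have m2 := hK.mem _ h3
    exact ⟨m1.1, m1.2.2.2.1, m2.1, m2.2.2.2.1, m1.2.1, m1.2.2.2.2⟩
  · intro z hz
    exact (supp z hz).1.1
  · intro z z' hz hz' e
    exact hK.s00 _ _ (supp z hz).2.1 (supp z' hz').2.1 e
  · intro z z' hz hz' e
    exact hK.s00 _ _ (supp z hz).2.2 (supp z' hz').2.2 e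
  · intro z z' hz hz' e
    exact hK.s10 _ _ (supp z hz).2.1 (supp z' hz').2.1 e
  · intro z z' hz hz' e
    obtain ⟨⟨_, a, _⟩, _, c⟩ := supp z hz
    obtain ⟨⟨_, a', _⟩, _, c'⟩ := supp z' hz'
    have := hK.s10 _ _ c c'
    simp only at e ⊢
    rw [← a, ← a'] at this
    exact this e
  · intro z z' hz hz' e
    exact hK.s01 _ _ (supp z hz).2.1 (supp z' hz').2.1 e
  · intro z z' hz hz' e
    obtain ⟨⟨_, _, a⟩, _, c⟩ := supp z hz
    obtain ⟨⟨_, _, a'⟩, _, c'⟩ := supp z' hz'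
    have := hK.s01 _ _ c c'
    simp only at e ⊢
    rw [← a, ← a'] at this
    exact this e
  · intro z z' hz hz' e
    exact hK.s11 _ _ (supp z hz).2.1 (supp z' hz').2.1 e
  · intro α F
    rw [← H_equiv (glue κ κ (T x0 x1 y0 y1) (T x0 x1 y0 y1)) (Equiv.prodComm Ω Ω)
      (glue_swap κ _) (fun z => F (x0 z.1) (y0 z.1) (x0 z.2) (y0 z.2) (x1 z.1) (y1 z.1))]
    refine H_supp hg fun z hz => ?_
    obtain ⟨⟨_, a, b⟩, _⟩ := supp z hz
    simp only [Equiv.prodComm_apply, Prod.fst_swap, Prod.snd_swap, a, b]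
  · rw [fst (fun ω => (x0 ω, y0 ω, x1 ω, y1 ω))]
    have h1 : H κ (fun ω => (x0 ω, x1 ω, x2 ω, y0 ω, y1 ω)) ≤
        H κ (fun ω => (x0 ω, y0 ω, x1 ω, y1 ω)) + H κ (fun ω => x2 ω) := subadd hq (by
      intro ω ω' h h' e; have hk := K32.key hK ω ω' h h'; simp only [Prod.mk.injEq] at e ⊢; omega)
    have o2 : H κ (fun ω => x2 ω) ≤ Real.log A.card :=
      H_le_log_card hq _ A fun ω h => (hK.mem ω h).2.2.1
    linarith [hK.ent]
  · have h1 : H κ (fun ω => (x0 ω, x1 ω, x2 ω, y0 ω, y1 ω)) ≤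
        H κ (fun ω => (x0 ω, y0 ω, x1 ω, y1 ω)) + H κ (fun ω => x2 ω) := subadd hq (by
      intro ω ω' h h' e; have hk := K32.key hK ω ω' h h'; simp only [Prod.mk.injEq] at e ⊢; omega)
    have o2 : H κ (fun ω => x2 ω) ≤ Real.log A.card :=
      H_le_log_card hq _ A fun ω h => (hK.mem ω h).2.2.1
    have hd : Det κ (fun ω => (x0 ω, y0 ω, x1 ω, y1 ω)) (T x0 x1 y0 y1) := by
      intro ω ω' h h' e
      simp only [T, Prod.mk.injEq] at e ⊢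
      omega
    have h2 := H_glue hq hq (fun _ => rfl) hd hd
    have h3 : H (glue κ κ (T x0 x1 y0 y1) (T x0 x1 y0 y1))
        (fun z => (x0 z.1, y0 z.1, x0 z.2, x1 z.1, y1 z.1)) =
        H (glue κ κ (T x0 x1 y0 y1) (T x0 x1 y0 y1))
        (fun z => ((x0 z.1, y0 z.1, x1 z.1, y1 z.1), (x0 z.2, y0 z.2, x1 z.2, y1 z.2))) := by
      refine H_congr hg ?_ ?_
      · intro z z' hz hz' e
        have s1 := (supp z hz).1
        have s2 := (supp z' hz').1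
        simp only [Prod.mk.injEq] at e ⊢
        omega
      · intro z z' hz hz' e
        simp only [Prod.mk.injEq] at e ⊢
        omega
    have h4 : H (glue κ κ (T x0 x1 y0 y1) (T x0 x1 y0 y1))
        (fun z => (x0 z.1 + y0 z.1, x1 z.1, y1 z.1)) = H κ (T x0 x1 y0 y1) :=
      fst (T x0 x1 y0 y1)
    rw [h3, h4]
    have h5 : H (glue κ κ (T x0 x1 y0 y1) (T x0 x1 y0 y1))
        (fun z => ((x0 z.1, y0 z.1, x1 z.1, y1 z.1), (x0 z.2, y0 z.2, x1 z.2, y1 z.2))) =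
        H κ (fun ω => (x0 ω, y0 ω, x1 ω, y1 ω)) + H κ (fun ω => (x0 ω, y0 ω, x1 ω, y1 ω)) -
          H κ (T x0 x1 y0 y1) := h2
    rw [h5]
    linarith [hK.ent]
  · rw [fst (fun ω => y0 ω + x1 ω + y1 ω), fst (fun ω => x0 ω + y0 ω + y1 ω)]
    have h1 : H κ (fun ω => x0 ω + y0 ω + y1 ω) = H κ (fun ω => x1 ω + y0 ω + y1 ω) :=
      hK.px01 (fun x0 x1 x2 y0 y1 => x0 + y0 + y1)
    rw [h1]
    exact H_congr hq (by
      intro ω ω' h h' e; have hk := K32.key hK ω ω' h h'; simp only [Prod.mk.injEq] at e ⊢; omega) (by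
      intro ω ω' h h' e; have hk := K32.key hK ω ω' h h'; simp only [Prod.mk.injEq] at e ⊢; omega)
  · rw [fst (fun ω => x0 ω + x1 ω + y1 ω), fst (fun ω => x0 ω + y0 ω + x1 ω)]
    have h1 : H κ (fun ω => x0 ω + x1 ω + y1 ω) = H κ (fun ω => x0 ω + x1 ω + y0 ω) :=
      hK.py (fun x0 x1 x2 y0 y1 => x0 + x1 + y1)
    rw [h1]
    exact H_congr hq (by
      intro ω ω' h h' e; have hk := K32.key hK ω ω' h h'; simp only [Prod.mk.injEq] at e ⊢; omega) (by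
      intro ω ω' h h' e; have hk := K32.key hK ω ω' h h'; simp only [Prod.mk.injEq] at e ⊢; omega)
  · rw [fst (fun ω => x0 ω + y0 ω + x1 ω), fst (fun ω => x0 ω + y0 ω + y1 ω),
      fst (fun ω => x0 ω + y0 ω + x1 ω + y1 ω)]
    exact hK.top

theorem ineq (hK : K32 κ x0 x1 x2 y0 y1 A δ) :
    128 * Real.log A.card ≤ 85 * Real.log (A + A).card + 162 * δ := main_ineq hK.gs

end K32

end Pool.Agent.TH404.SD
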