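import Pool.Agent.TH404.SD.K32

/-!
# The law on `K_{3,2}`
-/

set_option autoImplicit false
set_option linter.unusedVariables false
set_option linter.unusedSectionVars false

open scoped Pointwise Classical

namespace Pool.Agent.TH404.SD
open Pool.Agent.W904.AK

section Con

variable {Ω : Type} [Fintype Ω]

/-- Three conditionally independent copies over `Y`. -/
noncomputable def k1 (p : Ω → ℝ) (Y : Ω → ℤ) : Ω × (Ω × Ω) → ℝ :=
  glue p (glue p p Y Y) Y (fun z => Y z.1)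

/-- The three values of `X`. -/
def xs (X : Ω → ℤ) (z : Ω × (Ω × Ω)) : ℤ × ℤ × ℤ := (X z.1, X z.2.1, X z.2.2)

/-- Two conditionally independent copies over the three values of `X`. -/
noncomputable def k2 (p : Ω → ℝ) (X Y : Ω → ℤ) : (Ω × (Ω × Ω)) × (Ω × (Ω × Ω)) → ℝ :=
  glue (k1 p Y) (k1 p Y) (xs X) (xs X)

variable {p : Ω → ℝ} {X Y : Ω → ℤ}

theorem compat (hp : IsLaw p) (c : ℤ) : im p Y c = im (glue p p Y Y) (fun z => Y z.1) c :=
  (im_glue_fst hp (fun _ => rfl) Y c).symm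

theorem k1_law (hp : IsLaw p) : IsLaw (k1 p Y) :=
  glue_law hp (glue_law hp hp fun _ => rfl) (compat hp)

theorem k2_law (hp : IsLaw p) : IsLaw (k2 p X Y) := glue_law (k1_law hp) (k1_law hp) fun _ => rfl

theorem k1_supp {z : Ω × (Ω × Ω)} (hz : k1 p Y z ≠ 0) :
    Y z.1 = Y z.2.1 ∧ Y z.2.1 = Y z.2.2 ∧ p z.1 ≠ 0 ∧ p z.2.1 ≠ 0 ∧ p z.2.2 ≠ 0 := by
  obtain ⟨h1, h2, h3⟩ := glue_supp hz
  obtain ⟨h4, h5, h6⟩ := glue_supp h3
  exact ⟨h1, h4, h2, h5, h6⟩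

/-- Exchange of the last two copies. -/
def e12 (Ω : Type) : Ω × (Ω × Ω) ≃ Ω × (Ω × Ω) where
  toFun z := (z.1, (z.2.2, z.2.1))
  invFun z := (z.1, (z.2.2, z.2.1))
  left_inv _ := rfl
  right_inv _ := rfl

/-- Exchange of the first two copies. -/
def e01 (Ω : Type) : Ω × (Ω × Ω) ≃ Ω × (Ω × Ω) where
  toFun z := (z.2.1, (z.1, z.2.2))
  invFun z := (z.2.1, (z.1, z.2.2))
  left_inv _ := rfl
  right_inv _ := rfl

theorem k1_form (p : Ω → ℝ) (Y : Ω → ℤ) (a b c : Ω) : k1 p Y (a, (b, c)) =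
    if Y a = Y b ∧ Y b = Y c then p a * p b * p c / (im p Y (Y a) * im p Y (Y a)) else 0 := by
  unfold k1 glue
  dsimp only
  by_cases h1 : Y a = Y b
  · by_cases h2 : Y b = Y c
    · rw [if_pos h1, if_pos h2, if_pos ⟨h1, h2⟩, ← h1, ← mul_div_assoc, div_div, ← mul_assoc]
    · rw [if_pos h1, if_neg h2, if_neg (fun h => h2 h.2)]
      simp
  · rw [if_neg h1, if_neg (fun h => h1 h.1)]

theorem k1_e12 (p : Ω → ℝ) (Y : Ω → ℤ) (z : Ω × (Ω × Ω)) : k1 p Y (e12 Ω z) = k1 p Y z := by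
  obtain ⟨a, b, c⟩ := z
  show k1 p Y (a, (c, b)) = k1 p Y (a, (b, c))
  rw [k1_form, k1_form]
  by_cases h : Y a = Y b ∧ Y b = Y c
  · rw [if_pos h, if_pos ⟨h.1.trans h.2, h.2.symm⟩]
    ring
  · rw [if_neg h, if_neg (fun h' : Y a = Y c ∧ Y c = Y b => h ⟨h'.1.trans h'.2, h'.2.symm⟩)]

theorem k1_e01 (p : Ω → ℝ) (Y : Ω → ℤ) (z : Ω × (Ω × Ω)) : k1 p Y (e01 Ω z) = k1 p Y z := by
  obtain ⟨a, b, c⟩ := z
  show k1 p Y (b, (a, c)) = k1 p Y (a, (b, c))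
  rw [k1_form, k1_form]
  by_cases h : Y a = Y b ∧ Y b = Y c
  · rw [if_pos h, if_pos ⟨h.1.symm, h.1.trans h.2⟩, h.1]
    ring
  · rw [if_neg h, if_neg (fun h' : Y b = Y a ∧ Y a = Y c => h ⟨h'.1.symm, h'.1.trans h'.2⟩)]

theorem k2_e12 (p : Ω → ℝ) (X Y : Ω → ℤ) (z : (Ω × (Ω × Ω)) × (Ω × (Ω × Ω))) :
    k2 p X Y (Equiv.prodCongr (e12 Ω) (e12 Ω) z) = k2 p X Y z :=
  glue_equiv (k1 p Y) (e12 Ω) (k1_e12 p Y) (xs X) (fun t => (t.1, t.2.2, t.2.1))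
    (fun s t h => by
      obtain ⟨s1, s2, s3⟩ := s
      obtain ⟨t1, t2, t3⟩ := t
      simp only [Prod.mk.injEq] at h ⊢
      tauto) (fun _ => rfl) z

theorem k2_e01 (p : Ω → ℝ) (X Y : Ω → ℤ) (z : (Ω × (Ω × Ω)) × (Ω × (Ω × Ω))) :
    k2 p X Y (Equiv.prodCongr (e01 Ω) (e01 Ω) z) = k2 p X Y z :=
  glue_equiv (k1 p Y) (e01 Ω) (k1_e01 p Y) (xs X) (fun t => (t.2.1, t.1, t.2.2))
    (fun s t h => by
      obtain ⟨s1, s2, s3⟩ := s
      obtain ⟨t1, t2, t3⟩ := t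
      simp only [Prod.mk.injEq] at h ⊢
      tauto) (fun _ => rfl) z

theorem k2_supp {z : (Ω × (Ω × Ω)) × (Ω × (Ω × Ω))} (hz : k2 p X Y z ≠ 0) :
    (X z.1.1 = X z.2.1 ∧ X z.1.2.1 = X z.2.2.1 ∧ X z.1.2.2 = X z.2.2.2) ∧
    (Y z.1.1 = Y z.1.2.1 ∧ Y z.1.2.1 = Y z.1.2.2) ∧
    (Y z.2.1 = Y z.2.2.1 ∧ Y z.2.2.1 = Y z.2.2.2) ∧
    (p z.1.1 ≠ 0 ∧ p z.1.2.1 ≠ 0 ∧ p z.1.2.2 ≠ 0) ∧
    (p z.2.1 ≠ 0 ∧ p z.2.2.1 ≠ 0 ∧ p z.2.2.2 ≠ 0) := by
  obtain ⟨h1, h2, h3⟩ := glue_supp hz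
  obtain ⟨a1, a2, a3⟩ := k1_supp h2
  obtain ⟨b1, b2, b3⟩ := k1_supp h3
  simp only [xs, Prod.mk.injEq] at h1
  exact ⟨h1, ⟨a1, a2⟩, ⟨b1, b2⟩, a3, b3⟩

/-- The entropy of three copies. -/
theorem H_k1 (hp : IsLaw p) : H (k1 p Y) (fun z => (X z.1, X z.2.1, X z.2.2, Y z.1)) =
    3 * H p (fun ω => (X ω, Y ω)) - 2 * H p Y := by
  have hd : Det p (fun ω => (X ω, Y ω)) Y := Det.snd p X Y
  have h1 := H_glue hp hp (fun _ => rfl) hd hd
  have hd2 : Det (glue p p Y Y) (fun z => ((X z.1, Y z.1), (X z.2, Y z.2))) (fun z => Y z.1) :=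
    fun z z' _ _ e => congrArg (fun t : (ℤ × ℤ) × (ℤ × ℤ) => t.1.2) e
  have h2 := H_glue hp (glue_law hp hp fun _ => rfl) (compat hp) hd hd2
  have h3 : H (k1 p Y) (fun z => (X z.1, X z.2.1, X z.2.2, Y z.1)) =
      H (k1 p Y) (fun z => ((X z.1, Y z.1), ((X z.2.1, Y z.2.1), (X z.2.2, Y z.2.2)))) := by
    refine H_congr (k1_law hp) ?_ ?_
    · intro z z' hz hz' e
      obtain ⟨a1, a2, -⟩ := k1_supp hz
      obtain ⟨b1, b2, -⟩ := k1_supp hz'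
      simp only [Prod.mk.injEq] at e ⊢
      omega
    · intro z z' hz hz' e
      simp only [Prod.mk.injEq] at e ⊢
      omega
  rw [h3]
  have h4 : H (k1 p Y) (fun z => ((X z.1, Y z.1), ((X z.2.1, Y z.2.1), (X z.2.2, Y z.2.2)))) =
      H p (fun ω => (X ω, Y ω)) +
        H (glue p p Y Y) (fun z => ((X z.1, Y z.1), (X z.2, Y z.2))) - H p Y := h2
  have h5 : H (glue p p Y Y) (fun z => ((X z.1, Y z.1), (X z.2, Y z.2))) =
      H p (fun ω => (X ω, Y ω)) + H p (fun ω => (X ω, Y ω)) - H p Y := h1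
  rw [h4, h5]
  ring

/-- The entropy of the law on `K_{3,2}`. -/
theorem H_k2 (hp : IsLaw p) {A : Finset ℤ} (hX : ∀ ω, p ω ≠ 0 → X ω ∈ A)
    (hY : ∀ ω, p ω ≠ 0 → Y ω ∈ A) :
    6 * H p (fun ω => (X ω, Y ω)) - 7 * Real.log A.card ≤
      H (k2 p X Y) (fun z => (X z.1.1, X z.1.2.1, X z.1.2.2, Y z.1.1, Y z.2.1)) := by
  have hl := k1_law (Y := Y) hp
  have hd : Det (k1 p Y) (fun z => (X z.1, X z.2.1, X z.2.2, Y z.1)) (xs X) := by
    intro z z' _ _ e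
    simp only [xs, Prod.mk.injEq] at e ⊢
    omega
  have h1 := H_glue hl hl (fun _ => rfl) hd hd
  have h2 : H (k2 p X Y) (fun z => (X z.1.1, X z.1.2.1, X z.1.2.2, Y z.1.1, Y z.2.1)) =
      H (k2 p X Y) (fun z => ((X z.1.1, X z.1.2.1, X z.1.2.2, Y z.1.1),
        (X z.2.1, X z.2.2.1, X z.2.2.2, Y z.2.1))) := by
    refine H_congr (k2_law hp) ?_ ?_
    · intro z z' hz hz' e
      obtain ⟨a1, -⟩ := k2_supp hz
      obtain ⟨b1, -⟩ := k2_supp hz'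
      simp only [Prod.mk.injEq] at e ⊢
      omega
    · intro z z' hz hz' e
      simp only [Prod.mk.injEq] at e ⊢
      omega
  have h3 : H (k2 p X Y) (fun z => ((X z.1.1, X z.1.2.1, X z.1.2.2, Y z.1.1),
      (X z.2.1, X z.2.2.1, X z.2.2.2, Y z.2.1))) =
      H (k1 p Y) (fun z => (X z.1, X z.2.1, X z.2.2, Y z.1)) +
        H (k1 p Y) (fun z => (X z.1, X z.2.1, X z.2.2, Y z.1)) - H (k1 p Y) (xs X) := h1
  have h4 : H (k1 p Y) (xs X) ≤ H (k1 p Y) (fun z => X z.1) +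
      H (k1 p Y) (fun z => (X z.2.1, X z.2.2)) := subadd hl (Det.refl _ _)
  have h5 : H (k1 p Y) (fun z => (X z.2.1, X z.2.2)) ≤ H (k1 p Y) (fun z => X z.2.1) +
      H (k1 p Y) (fun z => X z.2.2) := subadd hl (Det.refl _ _)
  have o1 : H (k1 p Y) (fun z => X z.1) ≤ Real.log A.card :=
    H_le_log_card hl _ A fun z hz => hX _ (k1_supp hz).2.2.1
  have o2 : H (k1 p Y) (fun z => X z.2.1) ≤ Real.log A.card :=
    H_le_log_card hl _ A fun z hz => hX _ (k1_supp hz).2.2.2.1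
  have o3 : H (k1 p Y) (fun z => X z.2.2) ≤ Real.log A.card :=
    H_le_log_card hl _ A fun z hz => hX _ (k1_supp hz).2.2.2.2
  have o4 : H p Y ≤ Real.log A.card := H_le_log_card hp _ A hY
  have h6 := H_k1 (X := X) (Y := Y) hp
  rw [h2, h3, h6]
  linarith

/-- The law on `K_{3,2}` has all the required properties. -/
theorem k32 (hp : IsLaw p) {A : Finset ℤ} (hX : ∀ ω, p ω ≠ 0 → X ω ∈ A)
    (hY : ∀ ω, p ω ≠ 0 → Y ω ∈ A) (hs : Spec p X Y) {δ : ℝ}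
    (hδ : 12 * Real.log A.card - 6 * H p (fun ω => (X ω, Y ω)) ≤ δ) :
    K32 (k2 p X Y) (fun z => X z.1.1) (fun z => X z.1.2.1) (fun z => X z.1.2.2)
      (fun z => Y z.1.1) (fun z => Y z.2.1) A δ := by
  have hl : IsLaw (k2 p X Y) := k2_law hp
  refine ⟨hl, ?_, ?_, ?_, ?_, ?_, ?_, ?_, ?_, ?_⟩
  · intro z hz
    obtain ⟨-, -, -, a, b⟩ := k2_supp hz
    exact ⟨hX _ a.1, hX _ a.2.1, hX _ a.2.2, hY _ a.1, hY _ b.1⟩
  · intro z z' hz hz' e
    obtain ⟨-, -, -, a, b⟩ := k2_supp hz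
    obtain ⟨-, -, -, a', b'⟩ := k2_supp hz'
    exact hs _ _ a.1 a'.1 e
  · intro z z' hz hz' e
    obtain ⟨c, -, -, a, b⟩ := k2_supp hz
    obtain ⟨c', -, -, a', b'⟩ := k2_supp hz'
    have := hs _ _ b.1 b'.1
    rw [← c.1, ← c'.1] at this
    exact this e
  · intro z z' hz hz' e
    obtain ⟨-, c, -, a, b⟩ := k2_supp hz
    obtain ⟨-, c', -, a', b'⟩ := k2_supp hz'
    have := hs _ _ a.2.1 a'.2.1
    rw [← c.1, ← c'.1] at this
    exact this e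
  · intro z z' hz hz' e
    obtain ⟨c, -, d, a, b⟩ := k2_supp hz
    obtain ⟨c', -, d', a', b'⟩ := k2_supp hz'
    have := hs _ _ b.2.1 b'.2.1
    rw [← c.2.1, ← c'.2.1, ← d.1, ← d'.1] at this
    exact this e
  · have := H_k2 hp hX hY
    linarith
  · intro α F
    have h1 := H_equiv (k2 p X Y) (Equiv.prodCongr (e01 Ω) (e01 Ω)) (k2_e01 p X Y)
      (fun z => F (X z.1.1) (X z.1.2.1) (X z.1.2.2) (Y z.1.1) (Y z.2.1))
    rw [← h1]
    refine H_supp hl fun z hz => ?_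
    obtain ⟨-, a, b, -⟩ := k2_supp hz
    show F (X z.1.2.1) (X z.1.1) (X z.1.2.2) (Y z.1.2.1) (Y z.2.2.1) = _
    rw [← a.1, ← b.1]
  · intro α F
    have h1 := H_equiv (k2 p X Y) (Equiv.prodCongr (e12 Ω) (e12 Ω)) (k2_e12 p X Y)
      (fun z => F (X z.1.1) (X z.1.2.1) (X z.1.2.2) (Y z.1.1) (Y z.2.1))
    rw [← h1]
    rfl
  · intro α F
    have h1 := H_equiv (k2 p X Y) (Equiv.prodComm _ _) (glue_swap (k1 p Y) (xs X))
      (fun z => F (X z.1.1) (X z.1.2.1) (X z.1.2.2) (Y z.1.1) (Y z.2.1))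
    rw [← h1]
    refine H_supp hl fun z hz => ?_
    obtain ⟨a, -⟩ := k2_supp hz
    show F (X z.2.1) (X z.2.2.1) (X z.2.2.2) (Y z.2.1) (Y z.1.1) = _
    rw [← a.1, ← a.2.1, ← a.2.2]

end Con

/-- The entropy inequality for finite sets. -/
theorem set_ineq {A : Finset ℤ} (hA : A.Nonempty) :
    128 * Real.log A.card ≤ 85 * Real.log (A + A).card +
      162 * (12 * Real.log A.card - 6 * Real.log (A - A).card) := by
  have hmem : ∀ d : {d // d ∈ A - A}, ∃ x ∈ A, ∃ y ∈ A, x - y = d.1 := fun d =>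
    Finset.mem_sub.1 d.2
  choose X hX Y hY hXY using hmem
  have hne : Nonempty {d // d ∈ A - A} := by
    obtain ⟨d, hd⟩ := hA.sub hA
    exact ⟨⟨d, hd⟩⟩
  have hlaw : IsLaw (unif {d // d ∈ A - A}) := unif_law _
  have hs : Spec (unif {d // d ∈ A - A}) X Y := by
    intro d d' _ _ e
    rw [hXY, hXY] at e
    have : d = d' := Subtype.ext e
    rw [this]
    exact ⟨rfl, rfl⟩
  have hinj : Function.Injective (fun d : {d // d ∈ A - A} => (X d, Y d)) := by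
    intro d d' e
    simp only [Prod.mk.injEq] at e
    apply Subtype.ext
    rw [← hXY, ← hXY, e.1, e.2]
  have hH : H (unif {d // d ∈ A - A}) (fun d => (X d, Y d)) = Real.log (A - A).card := by
    rw [H_unif _ hinj, Fintype.card_coe]
  exact (k32 hlaw (fun d _ => hX d) (fun d _ => hY d) hs (by rw [hH])).ineq

/-- The logarithmic inequality. -/
theorem log_ineq {A : Finset ℤ} (hA : A.Nonempty) :
    2788 * Real.log (A - A).card ≤ 3717 * Real.log (A + A).card := by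
  have h1 := set_ineq hA
  have h2 : (A - A).card * A.card ≤ (A + A).card * (A + A).card :=
    Finset.ruzsa_triangle_inequality_sub_add_add A A A
  have hs : (0 : ℝ) < (A - A).card := by exact_mod_cast (hA.sub hA).card_pos
  have ha : (0 : ℝ) < A.card := by exact_mod_cast hA.card_pos
  have hp : (0 : ℝ) < (A + A).card := by exact_mod_cast (hA.add hA).card_pos
  have h3 : Real.log (A - A).card + Real.log A.card ≤ 2 * Real.log (A + A).card := by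
    rw [← Real.log_mul hs.ne' ha.ne', two_mul, ← Real.log_mul hp.ne' hp.ne']
    exact Real.log_le_log (mul_pos hs ha) (by exact_mod_cast h2)
  linarith

end Pool.Agent.TH404.SD
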